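import Mathlib
import Pool.Agent.QSq.Chain

/-!
For Lebesgue-almost every `θ`, *every* real `η` and every `ε > 0` one has
`liminf q^(2/3-ε) ‖q²θ - η‖ = 0`; moreover, for fixed `ε`, the set of exceptional `θ` has Hausdorff
dimension at most `(8 - 12 ε) / (8 - 3 ε) < 1`.
-/

set_option autoImplicit false

namespace Pool.Agent.Results.MP_2f4707_nt.AlmostAllTheta

open MeasureTheory Finset Pool.Agent.QSq

/-- `L_ε(θ, η) = 0`: for every `δ > 0` there are arbitrarily large positive integers `q` with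
`q^(2/3-ε) ‖q²θ - η‖ < δ`. -/
def Good (ε θ η : ℝ) : Prop :=
  ∀ δ : ℝ, 0 < δ → ∀ N : ℕ, ∃ q : ℕ, N ≤ q ∧ 0 < q ∧
    (q : ℝ) ^ ((2 : ℝ) / 3 - ε) *
      |(q : ℝ) ^ 2 * θ - η - ((round ((q : ℝ) ^ 2 * θ - η) : ℤ) : ℝ)| < δ

lemma norm_real (θ η : ℝ) (q : ℕ) :
    ‖((q:ℤ) ^ 2) • ((θ : ℝ) : T) - ((η : ℝ) : T)‖
      = |(q : ℝ) ^ 2 * θ - η - ((round ((q : ℝ) ^ 2 * θ - η) : ℤ) : ℝ)| := by
  have h : ((q:ℤ) ^ 2) • ((θ : ℝ) : T) - ((η : ℝ) : T) = (((q : ℝ) ^ 2 * θ - η : ℝ) : T) := by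
    rw [← AddCircle.coe_zsmul]
    have h1 : (((q:ℤ) ^ 2) • θ : ℝ) = (q:ℝ) ^ 2 * θ := by
      rw [zsmul_eq_mul]; push_cast; ring
    rw [h1]
    rfl
  rw [h, UnitAddCircle.norm_eq]

/-- the set of `θ` for which some `η` is bad at all scales from `s` on -/
def Th (τ : ℝ) (s : ℕ) : Set ℝ :=
  {θ | ∃ η : T, ∀ k, s ≤ k → (((θ : ℝ) : T), η) ∈ badAt τ (Nk k)}

lemma tendsto_Nk : Filter.Tendsto (fun k => (Nk k : ℝ)) Filter.atTop Filter.atTop := by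
  refine tendsto_natCast_atTop_atTop.comp ?_
  refine Filter.tendsto_atTop_mono (f := fun k => k) (fun k => ?_) Filter.tendsto_id
  unfold Nk
  exact (Nat.lt_two_pow_self.trans (Nat.pow_lt_pow_right (by norm_num) Nat.lt_two_pow_self)).le

/-- exceptional `θ` lie in some `Th` -/
lemma exc_subset (ε : ℝ) (hε2 : ε < 2 / 3) (τ : ℝ) (hτ : 2 / 3 - ε < τ) (s₀ : ℕ) :
    {θ : ℝ | ∃ η : ℝ, ¬ Good ε θ η} ⊆ ⋃ s : ℕ, Th τ (s₀ + s) := by
  rintro θ ⟨η, hη⟩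
  unfold Good at hη
  push Not at hη
  obtain ⟨δ, hδ, N₀, hq⟩ := hη
  set ρ : ℝ := 2 / 3 - ε with hρ
  have hρ0 : 0 < ρ := by rw [hρ]; linarith
  -- eventually N ≥ N₀ and δ 2^(-ρ) N^(τ-ρ) > 1
  have e1 : ∀ᶠ k in Filter.atTop, (N₀:ℝ) ≤ Nk k := tendsto_Nk.eventually_ge_atTop _
  have e2 : ∀ᶠ k in Filter.atTop, (2:ℝ) ^ ρ / δ < (Nk k : ℝ) ^ (τ - ρ) :=
    ((tendsto_rpow_atTop (by linarith : 0 < τ - ρ)).comp tendsto_Nk).eventually_gt_atTop _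
  obtain ⟨s₁, hs₁⟩ := Filter.eventually_atTop.1 (e1.and e2)
  rw [Set.mem_iUnion]
  refine ⟨s₁, ((η : ℝ) : T), ?_⟩
  intro k hk
  obtain ⟨h1, h2⟩ := hs₁ k (by omega)
  intro q hqm
  rw [mem_Ioc] at hqm
  rw [norm_real]
  have hN1 : (1:ℝ) ≤ Nk k := by exact_mod_cast Nk_pos k
  have hN0 : (0:ℝ) < Nk k := by linarith
  have hqN : (Nk k : ℝ) < q := by exact_mod_cast hqm.1
  have hq2 : (q:ℝ) ≤ 2 * Nk k := by exact_mod_cast hqm.2
  have hq0 : (0:ℝ) < q := by linarith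
  have h3 := hq q (by
    have : (N₀:ℝ) ≤ q := by linarith
    exact_mod_cast this) (by exact_mod_cast hq0)
  set D := |(q : ℝ) ^ 2 * θ - η - ((round ((q : ℝ) ^ 2 * θ - η) : ℤ) : ℝ)| with hD
  have h4 : (q:ℝ) ^ ρ ≤ (2:ℝ) ^ ρ * (Nk k : ℝ) ^ ρ := by
    rw [← Real.mul_rpow (by norm_num) hN0.le]
    exact Real.rpow_le_rpow hq0.le hq2 hρ0.le
  have hD0 : 0 ≤ D := abs_nonneg _
  have h5 : δ ≤ (2:ℝ) ^ ρ * (Nk k : ℝ) ^ ρ * D := h3.trans (mul_le_mul_of_nonneg_right h4 hD0)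
  rw [div_lt_iff₀ hδ] at h2
  have h2r : (0:ℝ) < (2:ℝ) ^ ρ := by positivity
  have h6 : (Nk k : ℝ) ^ (τ - ρ) * (Nk k : ℝ) ^ ρ = (Nk k : ℝ) ^ τ := by
    rw [← Real.rpow_add hN0]; congr 1; ring
  have hNτ : (0:ℝ) < (Nk k : ℝ) ^ τ := by positivity
  have hNd : (0:ℝ) < (Nk k : ℝ) ^ (τ - ρ) := by positivity
  have h7 : (2:ℝ) ^ ρ * 1 < (2:ℝ) ^ ρ * ((Nk k : ℝ) ^ τ * D) := by
    calc (2:ℝ) ^ ρ * 1 < (Nk k : ℝ) ^ (τ - ρ) * δ := by linarith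
      _ ≤ (Nk k : ℝ) ^ (τ - ρ) * ((2:ℝ) ^ ρ * (Nk k : ℝ) ^ ρ * D) :=
          mul_le_mul_of_nonneg_left h5 hNd.le
      _ = (2:ℝ) ^ ρ * (((Nk k : ℝ) ^ (τ - ρ) * (Nk k : ℝ) ^ ρ) * D) := by ring
      _ = (2:ℝ) ^ ρ * ((Nk k : ℝ) ^ τ * D) := by rw [h6]
  have h8 : 1 < (Nk k : ℝ) ^ τ * D := lt_of_mul_lt_mul_left h7 h2r.le
  rw [Real.rpow_neg hN0.le, inv_lt_iff_one_lt_mul₀ hNτ]
  linarith

/-- Hausdorff measure of a piece of `Th` -/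
lemma hausdorff_zero (τ τ' : ℝ) (hτ0 : 0 < τ) (hτ1 : τ < 1) (hττ' : τ < τ') (σ : ℝ)
    (hσ : 4 * τ' < σ * (2 + τ)) (hσ0 : 0 < σ) :
    ∃ s₀ : ℕ, ∀ s, s₀ ≤ s → ∀ c : ℝ,
      Measure.hausdorffMeasure σ (Th τ s ∩ Set.Icc c (c + 1 / 2)) = 0 := by
  obtain ⟨s₀, hs₀⟩ := chain τ τ' hτ0 hτ1 hττ'
  refine ⟨s₀, fun s hs c => ?_⟩
  obtain ⟨C, hC0, hC⟩ := hs₀ s hs
  -- maximal separated sets
  choose Y hY1 hY2 hY3 using fun k : ℕ => exists_maximal τ hτ0 (Nk k) (Nk_pos k) (Sk τ s k)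
  set t : ∀ k : ℕ, (Y k) → Set ℝ := fun k y =>
    {θ | θ ∈ Set.Icc c (c + 1 / 2) ∧ ‖((θ : ℝ) : T) - y.1.1‖ ≤ 2 * aRad τ (Nk k)} with ht
  have hdiam : ∀ k, ∀ y : Y k, Metric.ediam (t k y) ≤ ENNReal.ofReal (4 * aRad τ (Nk k)) := by
    intro k y
    refine Metric.ediam_le fun θ hθ θ' hθ' => ?_
    rw [edist_dist]
    apply ENNReal.ofReal_le_ofReal
    have h1 : |θ - θ'| ≤ 1 / 2 := by
      rw [abs_le]
      have := hθ.1.1
      have := hθ.1.2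
      have := hθ'.1.1
      have := hθ'.1.2
      constructor <;> linarith
    have h2 : ‖((θ : ℝ) : T) - ((θ' : ℝ) : T)‖ = |θ - θ'| := by
      have : ((θ : ℝ) : T) - ((θ' : ℝ) : T) = ((θ - θ' : ℝ) : T) := rfl
      rw [this]
      exact (AddCircle.norm_coe_eq_abs_iff (1:ℝ) one_ne_zero).2 (by rw [abs_one]; exact h1)
    rw [Real.dist_eq, ← h2]
    have e : ((θ : ℝ) : T) - ((θ' : ℝ) : T) = (((θ : ℝ) : T) - y.1.1) - (((θ' : ℝ) : T) - y.1.1) := by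
      abel
    rw [e]
    refine (norm_sub_le _ _).trans ?_
    have := hθ.2
    have := hθ'.2
    linarith
  have hcover : ∀ k, s ≤ k → Th τ s ∩ Set.Icc c (c + 1 / 2) ⊆ ⋃ y, t k y := by
    rintro k hk θ ⟨⟨η, hη⟩, hθ⟩
    obtain ⟨y, hy, h1, -⟩ := hY3 k (((θ : ℝ) : T), η) (fun j hj _ => hη j hj)
    rw [Set.mem_iUnion]
    exact ⟨⟨y, hy⟩, hθ, h1⟩
  have ha : ∀ k, 4 * aRad τ (Nk k) ≤ (Nk k : ℝ) ^ (-(2 + τ)) := by
    intro k
    have hN1 : (1:ℝ) ≤ Nk k := by exact_mod_cast Nk_pos k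
    have hN0 : (0:ℝ) < Nk k := by linarith
    unfold aRad
    have h1 : (Nk k : ℝ) ^ (-(2 + τ)) = (Nk k : ℝ) ^ (-τ) / (Nk k : ℝ) ^ 2 := by
      rw [show -(2 + τ) = -τ - (2:ℕ) by push_cast; ring, Real.rpow_sub hN0, Real.rpow_natCast]
    rw [h1]
    have h2 : 4 * ((Nk k : ℝ) ^ (-τ) / (16 * (Nk k : ℝ) ^ 2))
        = ((Nk k : ℝ) ^ (-τ) / (Nk k : ℝ) ^ 2) / 4 := by
      field_simp; norm_num
    rw [h2]
    have : 0 ≤ (Nk k : ℝ) ^ (-τ) / (Nk k : ℝ) ^ 2 := by positivity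
    linarith
  set κ : ℝ := σ * (2 + τ) - 4 * τ' with hκ
  have hκ0 : 0 < κ := by rw [hκ]; linarith
  have hr : Filter.Tendsto (fun k => ENNReal.ofReal (4 * aRad τ (Nk k))) Filter.atTop (nhds 0) := by
    rw [← ENNReal.ofReal_zero]
    apply ENNReal.tendsto_ofReal
    have h1 : Filter.Tendsto (fun k => (Nk k : ℝ) ^ (-(2 + τ))) Filter.atTop (nhds 0) :=
      (tendsto_rpow_neg_atTop (by linarith : 0 < 2 + τ)).comp tendsto_Nk
    exact squeeze_zero (fun k => by have := aRad_pos τ (Nk k) (Nk_pos k); positivity) ha h1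
  have hle := Measure.hausdorffMeasure_le_liminf_sum σ (Th τ s ∩ Set.Icc c (c + 1 / 2)) _ hr t
    (Filter.Eventually.of_forall hdiam)
    ((Filter.eventually_ge_atTop s).mono fun k hk => hcover k hk)
  have hsum : ∀ᶠ k in Filter.atTop, ∑ y, Metric.ediam (t k y) ^ σ
      ≤ ENNReal.ofReal (C * (Nk k : ℝ) ^ (-κ)) := by
    filter_upwards [Filter.eventually_ge_atTop s] with k hk
    have hN1 : (1:ℝ) ≤ Nk k := by exact_mod_cast Nk_pos k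
    have hN0 : (0:ℝ) < Nk k := by linarith
    have hapos := aRad_pos τ (Nk k) (Nk_pos k)
    calc ∑ y, Metric.ediam (t k y) ^ σ ≤ ∑ y : Y k, ENNReal.ofReal (4 * aRad τ (Nk k)) ^ σ :=
          sum_le_sum fun y _ => ENNReal.rpow_le_rpow (hdiam k y) hσ0.le
      _ = ENNReal.ofReal ((Y k).card * (4 * aRad τ (Nk k)) ^ σ) := by
          rw [sum_const, card_univ, Fintype.card_coe, nsmul_eq_mul,
            ENNReal.ofReal_rpow_of_pos (by positivity), ENNReal.ofReal_mul (by positivity),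
            ENNReal.ofReal_natCast]
      _ ≤ ENNReal.ofReal (C * (Nk k : ℝ) ^ (-κ)) := by
          apply ENNReal.ofReal_le_ofReal
          have h1 := hC k hk (Y k) (hY1 k) (hY2 k)
          have h2 : (4 * aRad τ (Nk k)) ^ σ ≤ ((Nk k : ℝ) ^ (-(2 + τ))) ^ σ :=
            Real.rpow_le_rpow (by positivity) (ha k) hσ0.le
          calc ((Y k).card : ℝ) * (4 * aRad τ (Nk k)) ^ σ
              ≤ (C * ((Nk k : ℝ) ^ τ') ^ 4) * ((Nk k : ℝ) ^ (-(2 + τ))) ^ σ :=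
                mul_le_mul h1 h2 (by positivity) (by positivity)
            _ = C * (Nk k : ℝ) ^ (-κ) := by
                rw [mul_assoc]
                congr 1
                rw [← Real.rpow_natCast, ← Real.rpow_mul hN0.le, ← Real.rpow_mul hN0.le,
                  ← Real.rpow_add hN0]
                congr 1
                rw [hκ]; push_cast; ring
  have hlim : Filter.Tendsto (fun k => ENNReal.ofReal (C * (Nk k : ℝ) ^ (-κ))) Filter.atTop (nhds 0) := by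
    rw [← ENNReal.ofReal_zero]
    apply ENNReal.tendsto_ofReal
    have h1 : Filter.Tendsto (fun k => (Nk k : ℝ) ^ (-κ)) Filter.atTop (nhds 0) :=
      (tendsto_rpow_neg_atTop hκ0).comp tendsto_Nk
    simpa using h1.const_mul C
  have h0 : Filter.liminf (fun k => ∑ y, Metric.ediam (t k y) ^ σ) Filter.atTop ≤ 0 := by
    calc _ ≤ Filter.liminf (fun k => ENNReal.ofReal (C * (Nk k : ℝ) ^ (-κ))) Filter.atTop :=
          Filter.liminf_le_liminf hsum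
      _ = 0 := hlim.liminf_eq
  exact le_antisymm (hle.trans h0) zero_le

/-- dimension bound for every exponent above the critical one -/
lemma dim_le (ε : ℝ) (hε : 0 < ε) (hε2 : ε < 2 / 3) (σ : NNReal)
    (hσ : (8 - 12 * ε) / (8 - 3 * ε) < σ) :
    dimH {θ : ℝ | ∃ η : ℝ, ¬ Good ε θ η} ≤ σ := by
  set ρ : ℝ := 2 / 3 - ε with hρ
  have hρ0 : 0 < ρ := by rw [hρ]; linarith
  have hρ1 : ρ < 2 / 3 := by rw [hρ]; linarith
  have hd : (8 - 12 * ε) / (8 - 3 * ε) = 4 * ρ / (2 + ρ) := by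
    rw [hρ, div_eq_div_iff (by linarith) (by linarith)]
    ring
  rw [hd] at hσ
  have hσ0 : (0:ℝ) < σ := lt_trans (by positivity) hσ
  rw [div_lt_iff₀ (by linarith)] at hσ
  obtain ⟨t, ht0, ht1, ht2⟩ : ∃ t : ℝ, 0 < t ∧ ρ + t < 1 ∧ 4 * (ρ + 2 * t) < σ * (2 + (ρ + t)) := by
    refine ⟨min (1 / 4) ((σ * (2 + ρ) - 4 * ρ) / 16), ?_, ?_, ?_⟩
    · apply lt_min (by norm_num)
      linarith
    · have := min_le_left (1 / 4) ((σ * (2 + ρ) - 4 * ρ) / 16)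
      linarith
    · have h1 := min_le_right (1 / 4) ((σ * (2 + ρ) - 4 * ρ) / 16)
      have h2 : 0 ≤ min (1 / 4) ((σ * (2 + ρ) - 4 * ρ) / 16) := by
        apply le_min (by norm_num)
        linarith
      have h3 : 0 ≤ (σ:ℝ) * min (1 / 4) ((σ * (2 + ρ) - 4 * ρ) / 16) := by positivity
      nlinarith
  obtain ⟨s₀, hs₀⟩ := hausdorff_zero (ρ + t) (ρ + 2 * t) (by linarith) ht1 (by linarith) σ ht2 hσ0
  have hsub := exc_subset ε hε2 (ρ + t) (by linarith) s₀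
  have hsub2 : (⋃ s : ℕ, Th (ρ + t) (s₀ + s)) ⊆
      ⋃ s : ℕ, ⋃ m : ℤ, (Th (ρ + t) (s₀ + s) ∩ Set.Icc ((m:ℝ) / 2) ((m:ℝ) / 2 + 1 / 2)) := by
    intro θ hθ
    rw [Set.mem_iUnion] at hθ
    obtain ⟨s, hs⟩ := hθ
    rw [Set.mem_iUnion]
    refine ⟨s, ?_⟩
    rw [Set.mem_iUnion]
    refine ⟨⌊2 * θ⌋, hs, ?_, ?_⟩
    · have := Int.floor_le (2 * θ); linarith
    · have := (Int.lt_floor_add_one (2 * θ)).le; linarith
  refine (dimH_mono (hsub.trans hsub2)).trans ?_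
  rw [dimH_iUnion]
  refine iSup_le fun s => ?_
  rw [dimH_iUnion]
  refine iSup_le fun m => ?_
  apply dimH_le_of_hausdorffMeasure_ne_top
  rw [hs₀ (s₀ + s) (by omega) ((m:ℝ) / 2)]
  exact ENNReal.zero_ne_top

lemma dim_bound (ε : ℝ) (hε : 0 < ε) (hε2 : ε < 2 / 3) :
    dimH {θ : ℝ | ∃ η : ℝ, ¬ Good ε θ η} ≤ ENNReal.ofReal ((8 - 12 * ε) / (8 - 3 * ε)) := by
  by_contra hcon
  push Not at hcon
  obtain ⟨σ, h1, h2⟩ := ENNReal.lt_iff_exists_nnreal_btwn.1 hcon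
  have h3 : (8 - 12 * ε) / (8 - 3 * ε) < σ := by
    rw [← ENNReal.ofReal_coe_nnreal] at h1
    exact (ENNReal.ofReal_lt_ofReal_iff_of_nonneg (by
      apply div_nonneg <;> linarith)).1 h1
  exact absurd (dim_le ε hε hε2 σ h3) (not_le.2 h2)

lemma good_mono (ε ε' θ η : ℝ) (h : ε ≤ ε') (hg : Good ε θ η) : Good ε' θ η := by
  intro δ hδ N
  obtain ⟨q, h1, h2, h3⟩ := hg δ hδ N
  refine ⟨q, h1, h2, lt_of_le_of_lt ?_ h3⟩
  apply mul_le_mul_of_nonneg_right _ (abs_nonneg _)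
  exact Real.rpow_le_rpow_of_exponent_le (by exact_mod_cast h2) (by linarith)

lemma ae_good (ε : ℝ) (hε : 0 < ε) (hε2 : ε < 2 / 3) : ∀ᵐ θ : ℝ, ∀ η : ℝ, Good ε θ η := by
  have h1 : dimH {θ : ℝ | ∃ η : ℝ, ¬ Good ε θ η} < ((1:NNReal) : ENNReal) := by
    refine lt_of_le_of_lt (dim_bound ε hε hε2) ?_
    rw [ENNReal.coe_one, ← ENNReal.ofReal_one]
    rw [ENNReal.ofReal_lt_ofReal_iff one_pos, div_lt_one (by linarith)]
    linarith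
  have h2 := hausdorffMeasure_of_dimH_lt h1
  rw [NNReal.coe_one, hausdorffMeasure_real] at h2
  rw [ae_iff]
  convert h2 using 2
  ext θ
  simp

/-- **Main theorem.** For Lebesgue-almost every `θ`, for every `η` and every `ε > 0`,
`liminf q^(2/3-ε) ‖q²θ - η‖ = 0`.  For `0 < ε < 2/3` the set of `θ` for which this fails for some
`η` has Hausdorff dimension at most `(8 - 12 ε) / (8 - 3 ε) < 1`. -/
theorem result :
    (∀ᵐ θ : ℝ, ∀ η ε : ℝ, 0 < ε → Good ε θ η) ∧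
    ∀ ε : ℝ, 0 < ε → ε < 2 / 3 →
      dimH {θ : ℝ | ∃ η : ℝ, ¬ Good ε θ η} ≤ ENNReal.ofReal ((8 - 12 * ε) / (8 - 3 * ε)) := by
  refine ⟨?_, dim_bound⟩
  have h : ∀ᵐ θ : ℝ, ∀ n : ℕ, ∀ η : ℝ, Good (1 / ((n:ℝ) + 2)) θ η := by
    rw [ae_all_iff]
    intro n
    have hn : (0:ℝ) ≤ n := Nat.cast_nonneg n
    apply ae_good
    · positivity
    · rw [div_lt_div_iff₀ (by positivity) (by norm_num)]
      linarith
  filter_upwards [h] with θ hθ η ε hε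
  obtain ⟨n, hn⟩ := exists_nat_gt (1 / ε)
  refine good_mono (1 / ((n:ℝ) + 2)) ε θ η ?_ (hθ n η)
  rw [div_le_iff₀ (by positivity)]
  rw [div_lt_iff₀ hε] at hn
  nlinarith

end Pool.Agent.Results.MP_2f4707_nt.AlmostAllTheta
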