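import Mathlib
import Pool.Agent.QSq.EveryTh

/-!
For *every* irrational `θ`, the conclusion of Q1 holds for every shift `η` outside a set of
Hausdorff dimension at most `1/2`.
-/

set_option autoImplicit false

namespace Pool.Agent.Results.MP_2f4707_nt.EveryTheta

open MeasureTheory Finset Pool.Agent.QSq

/-- For every `δ > 0` there are arbitrarily large positive integers `q` with
`q^ρ ‖q²θ - η‖ < δ`, i.e. `liminf q^ρ ‖q²θ - η‖ = 0`. -/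
def GoodExp (ρ θ η : ℝ) : Prop :=
  ∀ δ : ℝ, 0 < δ → ∀ N : ℕ, ∃ q : ℕ, N ≤ q ∧ 0 < q ∧
    (q : ℝ) ^ ρ * |(q : ℝ) ^ 2 * θ - η - ((round ((q : ℝ) ^ 2 * θ - η) : ℤ) : ℝ)| < δ

lemma norm_real (θ η : ℝ) (q : ℕ) :
    ‖((q:ℤ) ^ 2) • ((θ : ℝ) : T) - ((η : ℝ) : T)‖
      = |(q : ℝ) ^ 2 * θ - η - ((round ((q : ℝ) ^ 2 * θ - η) : ℤ) : ℝ)| := by
  have h : ((q:ℤ) ^ 2) • ((θ : ℝ) : T) - ((η : ℝ) : T) = (((q : ℝ) ^ 2 * θ - η : ℝ) : T) := by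
    rw [← AddCircle.coe_zsmul]
    have h1 : (((q:ℤ) ^ 2) • θ : ℝ) = (q:ℝ) ^ 2 * θ := by
      rw [zsmul_eq_mul]; push_cast; ring
    rw [h1]
    rfl
  rw [h, UnitAddCircle.norm_eq]

/-- exceptional `η` lie in some `Eb` -/
lemma exc_subset (θ ρ : ℝ) (hρ0 : 0 < ρ) (τ : ℝ) (hτ : ρ < τ) :
    {η : ℝ | ¬ GoodExp ρ θ η} ⊆ ⋃ s : ℕ, Eb θ τ s := by
  rintro η hη
  have hη : ¬ GoodExp ρ θ η := hη
  unfold GoodExp at hη
  push Not at hη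
  obtain ⟨δ, hδ, N₀, hq⟩ := hη
  have e2 : ∀ᶠ k : ℕ in Filter.atTop, (2:ℝ) ^ ρ / δ ≤ (k : ℝ) ^ (τ - ρ) :=
    ((tendsto_rpow_atTop (by linarith : 0 < τ - ρ)).comp
      tendsto_natCast_atTop_atTop).eventually_ge_atTop _
  obtain ⟨s₁, hs₁⟩ := Filter.eventually_atTop.1 e2
  rw [Set.mem_iUnion]
  refine ⟨s₁ + N₀, ?_⟩
  intro k hk hk1
  have h2 := hs₁ k (by omega)
  intro q hqm
  rw [mem_Ioc] at hqm
  rw [norm_real]
  have hN1 : (1:ℝ) ≤ k := by exact_mod_cast hk1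
  have hN0 : (0:ℝ) < k := by linarith
  have hqN : (k : ℝ) < q := by exact_mod_cast hqm.1
  have hq2 : (q:ℝ) ≤ 2 * k := by exact_mod_cast hqm.2
  have hq0 : (0:ℝ) < q := by linarith
  have h3 := hq q (by omega) (by exact_mod_cast hq0)
  set D := |(q : ℝ) ^ 2 * θ - η - ((round ((q : ℝ) ^ 2 * θ - η) : ℤ) : ℝ)| with hD
  have h4 : (q:ℝ) ^ ρ ≤ (2:ℝ) ^ ρ * (k : ℝ) ^ ρ := by
    rw [← Real.mul_rpow (by norm_num) hN0.le]
    exact Real.rpow_le_rpow hq0.le hq2 hρ0.le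
  have hD0 : 0 ≤ D := abs_nonneg _
  have h5 : δ ≤ (2:ℝ) ^ ρ * (k : ℝ) ^ ρ * D := h3.trans (mul_le_mul_of_nonneg_right h4 hD0)
  rw [div_le_iff₀ hδ] at h2
  have h2r : (0:ℝ) < (2:ℝ) ^ ρ := by positivity
  have h6 : (k : ℝ) ^ (τ - ρ) * (k : ℝ) ^ ρ = (k : ℝ) ^ τ := by
    rw [← Real.rpow_add hN0]; congr 1; ring
  have hNτ : (0:ℝ) < (k : ℝ) ^ τ := by positivity
  have hNd : (0:ℝ) < (k : ℝ) ^ (τ - ρ) := by positivity
  have h7 : (2:ℝ) ^ ρ * 1 ≤ (2:ℝ) ^ ρ * ((k : ℝ) ^ τ * D) := by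
    calc (2:ℝ) ^ ρ * 1 ≤ (k : ℝ) ^ (τ - ρ) * δ := by linarith
      _ ≤ (k : ℝ) ^ (τ - ρ) * ((2:ℝ) ^ ρ * (k : ℝ) ^ ρ * D) :=
          mul_le_mul_of_nonneg_left h5 hNd.le
      _ = (2:ℝ) ^ ρ * (((k : ℝ) ^ (τ - ρ) * (k : ℝ) ^ ρ) * D) := by ring
      _ = (2:ℝ) ^ ρ * ((k : ℝ) ^ τ * D) := by rw [h6]
  have h8 : 1 ≤ (k : ℝ) ^ τ * D := le_of_mul_le_mul_left h7 h2r
  rw [Real.rpow_neg hN0.le, inv_le_iff_one_le_mul₀ hNτ]
  linarith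

/-- dimension bound for every exponent above the critical one -/
lemma dim_le (θ : ℝ) (hθ : Irrational θ) (ρ : ℝ) (hρ : 1 / 2 < ρ) (hρ1 : ρ < 1) (σ : NNReal)
    (hσ : 2 - 1 / ρ < σ) :
    dimH {η : ℝ | ¬ GoodExp ρ θ η} ≤ σ := by
  have hρ0 : 0 < ρ := by linarith
  have hσ' : 2 * ρ - 1 < σ * ρ := by
    have h1 : (2 - 1 / ρ) * ρ < σ * ρ := mul_lt_mul_of_pos_right hσ hρ0
    have h2 : (2 - 1 / ρ) * ρ = 2 * ρ - 1 := by field_simp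
    linarith
  have hσ0 : (0:ℝ) < σ := by
    by_contra hcon
    have hz : (σ:ℝ) = 0 := le_antisymm (not_lt.1 hcon) σ.2
    rw [hz] at hσ'
    linarith
  -- choose τ slightly larger than ρ
  set g : ℝ := σ * ρ - (2 * ρ - 1) with hg
  have hg0 : 0 < g := by rw [hg]; linarith
  set t : ℝ := min (g / 4) ((1 - ρ) / 2) with ht
  have ht0 : 0 < t := lt_min (by linarith) (by linarith)
  have ht1 : t ≤ g / 4 := min_le_left _ _
  have ht2 : t ≤ (1 - ρ) / 2 := min_le_right _ _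
  have hkey : 2 * (ρ + t) - 1 < σ * (ρ + t) := by
    have : 0 ≤ (σ:ℝ) * t := by positivity
    nlinarith
  have hsub := exc_subset θ ρ hρ0 (ρ + t) (by linarith)
  have hsub2 : (⋃ s : ℕ, Eb θ (ρ + t) s) ⊆
      ⋃ s : ℕ, ⋃ m : ℤ, (Eb θ (ρ + t) s ∩ Set.Icc ((m:ℝ) / 2) ((m:ℝ) / 2 + 1 / 2)) := by
    intro η hη
    rw [Set.mem_iUnion] at hη
    obtain ⟨s, hs⟩ := hη
    rw [Set.mem_iUnion]
    refine ⟨s, ?_⟩
    rw [Set.mem_iUnion]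
    refine ⟨⌊2 * η⌋, hs, ?_, ?_⟩
    · have := Int.floor_le (2 * η); linarith
    · have := (Int.lt_floor_add_one (2 * η)).le; linarith
  refine (dimH_mono (hsub.trans hsub2)).trans ?_
  rw [dimH_iUnion]
  refine iSup_le fun s => ?_
  rw [dimH_iUnion]
  refine iSup_le fun m => ?_
  apply dimH_le_of_hausdorffMeasure_ne_top
  rw [hausdorff_Eb θ hθ (ρ + t) (by linarith) (by linarith) σ hσ0 hkey s ((m:ℝ) / 2)]
  exact ENNReal.zero_ne_top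

lemma dim_bound (θ : ℝ) (hθ : Irrational θ) (ρ : ℝ) (hρ : 1 / 2 < ρ) (hρ1 : ρ < 1) :
    dimH {η : ℝ | ¬ GoodExp ρ θ η} ≤ ENNReal.ofReal (2 - 1 / ρ) := by
  by_contra hcon
  push Not at hcon
  obtain ⟨σ, h1, h2⟩ := ENNReal.lt_iff_exists_nnreal_btwn.1 hcon
  have h3 : 2 - 1 / ρ < σ := by
    rw [← ENNReal.ofReal_coe_nnreal] at h1
    exact (ENNReal.ofReal_lt_ofReal_iff_of_nonneg (by
      have : 1 / ρ ≤ 2 := by rw [div_le_iff₀ (by linarith)]; linarith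
      linarith)).1 h1
  exact absurd (dim_le θ hθ ρ hρ hρ1 σ h3) (not_le.2 h2)

lemma good_mono (ρ ρ' θ η : ℝ) (h : ρ ≤ ρ') (hg : GoodExp ρ' θ η) : GoodExp ρ θ η := by
  intro δ hδ N
  obtain ⟨q, h1, h2, h3⟩ := hg δ hδ N
  refine ⟨q, h1, h2, lt_of_le_of_lt ?_ h3⟩
  apply mul_le_mul_of_nonneg_right _ (abs_nonneg _)
  exact Real.rpow_le_rpow_of_exponent_le (by exact_mod_cast h2) h

lemma half_bound (ρ : ℝ) (hρ : 1 / 2 < ρ) (hρ1 : ρ ≤ 2 / 3) : ENNReal.ofReal (2 - 1 / ρ) ≤ 1 / 2 := by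
  have h1 : 2 - 1 / ρ ≤ 1 / 2 := by
    have : 3 / 2 ≤ 1 / ρ := by rw [le_div_iff₀ (by linarith)]; linarith
    linarith
  calc ENNReal.ofReal (2 - 1 / ρ) ≤ ENNReal.ofReal (1 / 2) := ENNReal.ofReal_le_ofReal h1
    _ = 1 / 2 := by
      rw [ENNReal.ofReal_div_of_pos (by norm_num), ENNReal.ofReal_one]
      norm_num

/-- **Main theorem.** Let `θ` be irrational.
1. For `1/2 < ρ < 1` the set of `η` for which `liminf q^ρ ‖q²θ - η‖ > 0` has Hausdorff dimension at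
most `2 - 1/ρ`.
2. The set of `η` for which `liminf q^(2/3-ε) ‖q²θ - η‖ > 0` for some `ε > 0` has Hausdorff dimension
at most `1/2`.
3. For Lebesgue-almost every `η`, `liminf q^ρ ‖q²θ - η‖ = 0` for all `ρ < 1`. -/
theorem result (θ : ℝ) (hθ : Irrational θ) :
    (∀ ρ : ℝ, 1 / 2 < ρ → ρ < 1 →
      dimH {η : ℝ | ¬ GoodExp ρ θ η} ≤ ENNReal.ofReal (2 - 1 / ρ)) ∧
    dimH {η : ℝ | ∃ ε : ℝ, 0 < ε ∧ ¬ GoodExp (2 / 3 - ε) θ η} ≤ 1 / 2 ∧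
    (∀ᵐ η : ℝ, ∀ ρ : ℝ, ρ < 1 → GoodExp ρ θ η) := by
  refine ⟨dim_bound θ hθ, ?_, ?_⟩
  · have hsub : {η : ℝ | ∃ ε : ℝ, 0 < ε ∧ ¬ GoodExp (2 / 3 - ε) θ η}
        ⊆ ⋃ n : ℕ, {η : ℝ | ¬ GoodExp (2 / 3 - 1 / ((n:ℝ) + 7)) θ η} := by
      rintro η ⟨ε, hε, hη⟩
      rw [Set.mem_iUnion]
      obtain ⟨n, hn⟩ := exists_nat_gt (1 / ε)
      refine ⟨n, fun hg => hη (good_mono _ _ θ η ?_ hg)⟩
      have : 1 / ((n:ℝ) + 7) ≤ ε := by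
        rw [div_le_iff₀ (by positivity)]
        rw [div_lt_iff₀ hε] at hn
        nlinarith
      linarith
    refine (dimH_mono hsub).trans ?_
    rw [dimH_iUnion]
    refine iSup_le fun n => ?_
    have h1 : 1 / ((n:ℝ) + 7) ≤ 1 / 7 :=
      one_div_le_one_div_of_le (by norm_num) (by have : (0:ℝ) ≤ n := Nat.cast_nonneg n; linarith)
    have h2 : 0 < 1 / ((n:ℝ) + 7) := by positivity
    refine (dim_bound θ hθ _ (by linarith) (by linarith)).trans (half_bound _ (by linarith) (by linarith))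
  · have h : ∀ n : ℕ, ∀ᵐ η : ℝ, GoodExp (1 - 1 / ((n:ℝ) + 3)) θ η := by
      intro n
      have hn : (0:ℝ) ≤ n := Nat.cast_nonneg n
      have h0 : 1 / ((n:ℝ) + 3) ≤ 1 / 3 := one_div_le_one_div_of_le (by norm_num) (by linarith)
      have h0' : 0 < 1 / ((n:ℝ) + 3) := by positivity
      set ρ : ℝ := 1 - 1 / ((n:ℝ) + 3) with hρ
      have h1 : dimH {η : ℝ | ¬ GoodExp ρ θ η} < ((1:NNReal) : ENNReal) := by
        refine lt_of_le_of_lt (dim_bound θ hθ ρ (by linarith) (by linarith)) ?_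
        rw [ENNReal.coe_one, ← ENNReal.ofReal_one]
        rw [ENNReal.ofReal_lt_ofReal_iff one_pos]
        have : 1 < 1 / ρ := by rw [lt_div_iff₀ (by linarith)]; linarith
        linarith
      have h2 := hausdorffMeasure_of_dimH_lt h1
      rw [NNReal.coe_one, hausdorffMeasure_real] at h2
      exact h2
    have h' : ∀ᵐ η : ℝ, ∀ n : ℕ, GoodExp (1 - 1 / ((n:ℝ) + 3)) θ η := ae_all_iff.2 h
    filter_upwards [h'] with η hη ρ hρ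
    obtain ⟨n, hn⟩ := exists_nat_gt (1 / (1 - ρ))
    refine good_mono _ _ θ η ?_ (hη n)
    have hρ' : 0 < 1 - ρ := by linarith
    have : 1 / ((n:ℝ) + 3) ≤ 1 - ρ := by
      rw [div_le_iff₀ (by positivity)]
      rw [div_lt_iff₀ hρ'] at hn
      nlinarith
    linarith

end Pool.Agent.Results.MP_2f4707_nt.EveryTheta
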