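import Mathlib
import Pool.Agent.QHalf.Main

/-!
For every irrational `θ` and every modulus `v` there is a residue `u` prime to `v` such that
`liminf q^(2/3-ε) ‖q²θ - k²u/v‖ = 0` for all `k ≥ 1` and all `ε > 0`.  For `v = 2` this is
`L_ε(θ, 1/2) = 0`.
-/

set_option autoImplicit false

namespace Pool.Agent.Results.MP_2f4707_nt.HalfShift

open Pool.Agent.QHalf

/-- `L_ε(θ, η) = 0`: for every `δ > 0` there are arbitrarily large positive integers `q` with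
`q^(2/3-ε) ‖q²θ - η‖ < δ`. -/
def Good (ε θ η : ℝ) : Prop :=
  ∀ δ : ℝ, 0 < δ → ∀ N : ℕ, ∃ q : ℕ, N ≤ q ∧ 0 < q ∧
    (q : ℝ) ^ ((2 : ℝ) / 3 - ε) *
      |(q : ℝ) ^ 2 * θ - η - ((round ((q : ℝ) ^ 2 * θ - η) : ℤ) : ℝ)| < δ

/-- the residue of `t` in `[1, v]` -/
lemma exists_res (v : ℕ) (hv : 0 < v) (t : ℤ) (ht : IsCoprime t (v : ℤ)) :
    ∃ u : ℕ, 1 ≤ u ∧ u ≤ v ∧ Nat.Coprime u v ∧ ∃ w : ℤ, t = u + v * w := by
  have hvz : (0 : ℤ) < v := by exact_mod_cast hv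
  have h0 := Int.emod_nonneg (t - 1) hvz.ne'
  have h1 := Int.emod_lt_of_pos (t - 1) hvz
  have h2 := Int.emod_add_mul_ediv (t - 1) v
  refine ⟨((t - 1) % v + 1).toNat, by omega, by omega, ?_, (t - 1) / v, by
    rw [Int.toNat_of_nonneg (by omega)]
    linarith⟩
  rw [← Nat.isCoprime_iff_coprime, Int.toNat_of_nonneg (by omega)]
  have h3 : (t - 1) % v + 1 = t + v * (-((t - 1) / v)) := by linarith
  rw [h3]
  exact (IsCoprime.add_mul_left_left_iff).2 ht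

theorem result (θ : ℝ) (hθ : Irrational θ) (v : ℕ) (hv : 0 < v) :
    ∃ u : ℕ, 1 ≤ u ∧ u ≤ v ∧ Nat.Coprime u v ∧
      ∀ k : ℕ, 0 < k → ∀ ε : ℝ, 0 < ε → Good ε θ ((k : ℝ) ^ 2 * u / v) := by
  classical
  have hvr : (0 : ℝ) < v := by exact_mod_cast hv
  have key : ∀ i : ℕ, ∃ (n : ℕ) (u : Fin (v + 1)) (w : ℤ), i ≤ n ∧ 0 < n ∧ 1 ≤ (u : ℕ) ∧
      Nat.Coprime u v ∧
      (n : ℝ) ^ ((2 : ℝ) / 3 - 1 / (i + 2)) * |(n : ℝ) ^ 2 * θ - (u : ℕ) / v - w|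
        < 1 / (i + 1) := by
    intro i
    obtain ⟨n, t, h1, h2, h3, h4⟩ := main_prop θ hθ v hv (1 / ((i : ℝ) + 2)) (by positivity)
      (by
        rw [div_lt_div_iff₀ (by positivity) (by norm_num)]
        have : (0 : ℝ) ≤ i := by positivity
        linarith) (1 / ((i : ℝ) + 1)) (by positivity) i
    obtain ⟨u, hu1, hu2, hu3, w, hw⟩ := exists_res v hv t h3
    refine ⟨n, ⟨u, by omega⟩, w, h1, h2, hu1, hu3, ?_⟩
    have h5 : (t : ℝ) / v = (u : ℝ) / v + w := by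
      rw [hw]
      push_cast
      field_simp
    rw [h5] at h4
    simp only
    rwa [show (n : ℝ) ^ 2 * θ - (u : ℝ) / v - w = (n : ℝ) ^ 2 * θ - ((u : ℝ) / v + w) by ring]
  choose n u w hn1 hn2 hu1 hu2 hw using key
  obtain ⟨u₀, hu₀⟩ := Finite.exists_infinite_fiber u
  have hinf : (u ⁻¹' {u₀}).Infinite := Set.infinite_coe_iff.1 hu₀
  obtain ⟨i₀, hi₀⟩ := hinf.nonempty
  have hi₀' : u i₀ = u₀ := hi₀
  refine ⟨u₀, ?_, by omega, ?_, fun k hk ε hε δ hδ N => ?_⟩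
  · rw [← hi₀']; exact hu1 i₀
  · rw [← hi₀']; exact hu2 i₀
  · have hkr : (1 : ℝ) ≤ k := by exact_mod_cast hk
    obtain ⟨I, hI⟩ := exists_nat_gt (1 / ε + (k : ℝ) ^ 3 / δ + N)
    obtain ⟨i, hi, hiI⟩ := hinf.exists_gt I
    have hui : u i = u₀ := hi
    have hIi : (I : ℝ) < i := by exact_mod_cast hiI
    have h1 : 0 < 1 / ε := by positivity
    have h2 : 0 < (k : ℝ) ^ 3 / δ := by positivity
    have h3 : (0 : ℝ) ≤ N := by positivity
    have hNi : N ≤ i := by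
      have : (N : ℝ) ≤ i := by linarith
      exact_mod_cast this
    have hn1' : (1 : ℝ) ≤ n i := by exact_mod_cast hn2 i
    refine ⟨k * n i, ?_, Nat.mul_pos hk (hn2 i), ?_⟩
    · calc N ≤ i := hNi
        _ ≤ n i := hn1 i
        _ ≤ k * n i := Nat.le_mul_of_pos_left _ hk
    · have h4 := hw i
      rw [hui] at h4
      have h5 : |((k * n i : ℕ) : ℝ) ^ 2 * θ - (k : ℝ) ^ 2 * (u₀ : ℕ) / v
          - ((round (((k * n i : ℕ) : ℝ) ^ 2 * θ - (k : ℝ) ^ 2 * (u₀ : ℕ) / v) : ℤ) : ℝ)|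
          ≤ (k : ℝ) ^ 2 * |(n i : ℝ) ^ 2 * θ - (u₀ : ℕ) / v - w i| := by
        have h6 := round_le (((k * n i : ℕ) : ℝ) ^ 2 * θ - (k : ℝ) ^ 2 * (u₀ : ℕ) / v)
          ((k : ℤ) ^ 2 * w i)
        refine h6.trans (le_of_eq ?_)
        rw [← abs_of_nonneg (by positivity : (0:ℝ) ≤ (k : ℝ) ^ 2), ← abs_mul,
          abs_of_nonneg (by positivity : (0:ℝ) ≤ (k : ℝ) ^ 2)]
        congr 1
        push_cast
        ring
      have hexp : (2 : ℝ) / 3 - ε ≤ 2 / 3 - 1 / (i + 2) := by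
        have : 1 / ((i : ℝ) + 2) ≤ ε := by
          rw [div_le_iff₀ (by positivity)]
          have h7 : 1 / ε < i + 2 := by linarith
          rw [div_lt_iff₀ hε] at h7
          linarith
        linarith
      have hkn1 : (1 : ℝ) ≤ ((k * n i : ℕ) : ℝ) := by
        push_cast
        nlinarith
      have hs1 : (2 : ℝ) / 3 - 1 / (i + 2) ≤ 1 := by
        have : (0 : ℝ) < 1 / ((i : ℝ) + 2) := by positivity
        linarith
      have h7 : ((k * n i : ℕ) : ℝ) ^ ((2 : ℝ) / 3 - ε)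
          ≤ k * (n i : ℝ) ^ ((2 : ℝ) / 3 - 1 / (i + 2)) := by
        calc ((k * n i : ℕ) : ℝ) ^ ((2 : ℝ) / 3 - ε)
            ≤ ((k * n i : ℕ) : ℝ) ^ ((2 : ℝ) / 3 - 1 / (i + 2)) :=
              Real.rpow_le_rpow_of_exponent_le hkn1 hexp
          _ = (k : ℝ) ^ ((2 : ℝ) / 3 - 1 / (i + 2)) * (n i : ℝ) ^ ((2 : ℝ) / 3 - 1 / (i + 2)) := by
              push_cast
              exact Real.mul_rpow (by positivity) (by positivity)
          _ ≤ (k : ℝ) ^ (1 : ℝ) * (n i : ℝ) ^ ((2 : ℝ) / 3 - 1 / (i + 2)) := by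
              gcongr
          _ = _ := by rw [Real.rpow_one]
      calc ((k * n i : ℕ) : ℝ) ^ ((2 : ℝ) / 3 - ε)
            * |((k * n i : ℕ) : ℝ) ^ 2 * θ - (k : ℝ) ^ 2 * (u₀ : ℕ) / v
          - ((round (((k * n i : ℕ) : ℝ) ^ 2 * θ - (k : ℝ) ^ 2 * (u₀ : ℕ) / v) : ℤ) : ℝ)|
          ≤ (k * (n i : ℝ) ^ ((2 : ℝ) / 3 - 1 / (i + 2)))
            * ((k : ℝ) ^ 2 * |(n i : ℝ) ^ 2 * θ - (u₀ : ℕ) / v - w i|) :=
            mul_le_mul h7 h5 (abs_nonneg _) (by positivity)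
        _ = (k : ℝ) ^ 3 * ((n i : ℝ) ^ ((2 : ℝ) / 3 - 1 / (i + 2))
            * |(n i : ℝ) ^ 2 * θ - (u₀ : ℕ) / v - w i|) := by ring
        _ < (k : ℝ) ^ 3 * (1 / (i + 1)) := by
            gcongr
        _ ≤ δ := by
            rw [mul_one_div, div_le_iff₀ (by positivity)]
            have h8 : (k : ℝ) ^ 3 / δ < i + 1 := by linarith
            rw [div_lt_iff₀ hδ] at h8
            linarith

end Pool.Agent.Results.MP_2f4707_nt.HalfShift
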