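import Mathlib
import Pool.Agent.QSqL.Main

/-!
For every `θ` with irrationality exponent at least `7/2` and **every** real `η`, the conclusion of Q1
holds. More generally, for irrationality exponent `μ > 5/2` every exponent below
`(2 μ - 3) / (2 μ - 1) > 1/2` is admissible, uniformly in `η`.
-/

set_option autoImplicit false

namespace Pool.Agent.Results.MP_2f4707_nt.VeryWellApprox

open Filter Topology

/-- `‖x‖`: distance of `x` to the nearest integer -/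
noncomputable def nint (x : ℝ) : ℝ := |x - ((round x : ℤ) : ℝ)|

/-- Uniform inhomogeneous approximation with exponent `τ`: for every `δ > 0` and `N₀` there is `N` such
that *every* real `η` satisfies `N ^ τ * ‖q²θ - η‖ < δ` for some `q` with `N₀ < q ≤ N`. -/
def Unif (τ θ : ℝ) : Prop :=
  ∀ δ : ℝ, 0 < δ → ∀ N₀ : ℕ, ∃ N : ℕ, ∀ η : ℝ, ∃ q : ℕ, N₀ < q ∧ q ≤ N ∧
    (N : ℝ) ^ τ * nint ((q : ℝ) ^ 2 * θ - η) < δ

/-- `L_ε(θ, η) = 0`: for every `δ > 0` there are arbitrarily large `q` with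
`q ^ (2/3 - ε) * ‖q²θ - η‖ < δ`. -/
def LZero (ε θ η : ℝ) : Prop :=
  ∀ δ : ℝ, 0 < δ → ∀ N₀ : ℕ, ∃ q : ℕ, N₀ < q ∧
    (q : ℝ) ^ (2 / 3 - ε) * nint ((q : ℝ) ^ 2 * θ - η) < δ

lemma nint_nonneg (x : ℝ) : 0 ≤ nint x := abs_nonneg _

/-- monotonicity in the exponent -/
lemma Unif.mono {τ τ' θ : ℝ} (h : Unif τ' θ) (hle : τ ≤ τ') : Unif τ θ := by
  intro δ hδ N₀
  obtain ⟨N, hN⟩ := h δ hδ N₀
  refine ⟨N, fun η => ?_⟩
  obtain ⟨q, h1, h2, h3⟩ := hN η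
  refine ⟨q, h1, h2, lt_of_le_of_lt ?_ h3⟩
  have hN1 : (1 : ℝ) ≤ N := by exact_mod_cast (by omega : 1 ≤ N)
  exact mul_le_mul_of_nonneg_right (Real.rpow_le_rpow_of_exponent_le hN1 hle) (nint_nonneg _)

/-- from the uniform statement to the limes inferior -/
lemma Unif.lzero {ε τ θ : ℝ} (h : Unif τ θ) (hτ0 : 0 ≤ τ) (hle : 2 / 3 - ε ≤ τ) (η : ℝ) :
    LZero ε θ η := by
  intro δ hδ N₀
  obtain ⟨N, hN⟩ := h δ hδ N₀
  obtain ⟨q, h1, h2, h3⟩ := hN η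
  refine ⟨q, h1, lt_of_le_of_lt ?_ h3⟩
  have hq1 : (1 : ℝ) ≤ q := by exact_mod_cast (by omega : 1 ≤ q)
  have hqN : (q : ℝ) ≤ N := by exact_mod_cast h2
  refine mul_le_mul_of_nonneg_right ?_ (nint_nonneg _)
  calc (q : ℝ) ^ (2 / 3 - ε) ≤ (q : ℝ) ^ τ := Real.rpow_le_rpow_of_exponent_le hq1 hle
    _ ≤ (N : ℝ) ^ τ := Real.rpow_le_rpow (by linarith) hqN hτ0

theorem main {μ θ τ : ℝ} (hμ : 5 / 2 < μ) (h : LiouvilleWith μ θ)
    (hτ : τ < (2 * μ - 3) / (2 * μ - 1)) : Unif τ θ := by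
  have h1 : 0 < (2 * μ - 3) / (2 * μ - 1) := div_pos (by linarith) (by linarith)
  refine Unif.mono (τ' := max τ 0) ?_ (le_max_left _ _)
  intro δ hδ N₀
  exact Pool.Agent.QSqL.main_nonneg hμ h (le_max_right _ _) (max_lt hτ h1) δ hδ N₀

/-- the exponents tend to the limit -/
lemma exists_mu {μ₀ τ : ℝ} (hμ₀ : 5 / 2 < μ₀) (hτ : τ < (2 * μ₀ - 3) / (2 * μ₀ - 1)) :
    ∃ μ : ℝ, 5 / 2 < μ ∧ μ < μ₀ ∧ τ < (2 * μ - 3) / (2 * μ - 1) := by
  have hc : ContinuousAt (fun μ : ℝ => (2 * μ - 3) / (2 * μ - 1)) μ₀ := by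
    refine ContinuousAt.div (by fun_prop) (by fun_prop) ?_
    have : 0 < 2 * μ₀ - 1 := by linarith
    exact this.ne'
  have h1 : ∀ᶠ μ in 𝓝[<] μ₀, τ < (2 * μ - 3) / (2 * μ - 1) :=
    (hc.eventually (lt_mem_nhds hτ)).filter_mono nhdsWithin_le_nhds
  have h2 : ∀ᶠ μ in 𝓝[<] μ₀, 5 / 2 < μ := (lt_mem_nhds hμ₀).filter_mono nhdsWithin_le_nhds
  have h3 : ∀ᶠ μ in 𝓝[<] μ₀, μ < μ₀ := self_mem_nhdsWithin
  obtain ⟨μ, h4, h5, h6⟩ := (h1.and (h2.and h3)).exists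
  exact ⟨μ, h5, h6, h4⟩

/-- the limit of the exponents is `1` -/
lemma exists_mu_one {τ : ℝ} (hτ : τ < 1) :
    ∃ μ : ℝ, 5 / 2 < μ ∧ τ < (2 * μ - 3) / (2 * μ - 1) := by
  have h0 : 0 < 1 - τ := by linarith
  have h1 : 0 < 2 / (1 - τ) := by positivity
  refine ⟨3 + 2 / (1 - τ), by linarith, ?_⟩
  rw [lt_div_iff₀ (by linarith)]
  have h2 : 2 / (1 - τ) * (1 - τ) = 2 := by field_simp
  nlinarith

/-- (1) For every real `θ` with infinitely many approximations `|θ - a/r| < C / r ^ μ` (`μ > 5/2`,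
`LiouvilleWith μ θ`) and every `τ < (2 μ - 3) / (2 μ - 1)` the inhomogeneous approximation
`‖q²θ - η‖` has the exponent `τ`, uniformly in `η`.
(2) If the irrationality exponent of `θ` is at least `7/2` then `L_ε(θ, η) = 0` for every real `η` and
every `ε > 0`: the conclusion of Q1.
(3) For Liouville numbers every exponent `τ < 1` is admissible, and (4) the same holds for all `θ`
in a residual (comeagre) set. -/
theorem result :
    (∀ μ θ τ : ℝ, 5 / 2 < μ → LiouvilleWith μ θ → τ < (2 * μ - 3) / (2 * μ - 1) → Unif τ θ) ∧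
    (∀ θ : ℝ, (∀ μ : ℝ, μ < 7 / 2 → LiouvilleWith μ θ) →
      ∀ η ε : ℝ, 0 < ε → LZero ε θ η) ∧
    (∀ θ : ℝ, Liouville θ → ∀ τ : ℝ, τ < 1 → Unif τ θ) ∧
    (∀ᶠ θ in residual ℝ, ∀ τ : ℝ, τ < 1 → Unif τ θ) := by
  have h3 : ∀ θ : ℝ, Liouville θ → ∀ τ : ℝ, τ < 1 → Unif τ θ := by
    intro θ hθ τ hτ
    obtain ⟨μ, hμ, h1⟩ := exists_mu_one hτ
    exact main hμ (hθ.liouvilleWith μ) h1
  refine ⟨fun μ θ τ hμ h hτ => main hμ h hτ, ?_, h3, ?_⟩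
  · intro θ hθ η ε hε
    set τ : ℝ := max (2 / 3 - ε) 0 with hτ
    have h1 : τ < (2 * (7 / 2 : ℝ) - 3) / (2 * (7 / 2) - 1) := by
      refine max_lt ?_ ?_
      · norm_num; linarith
      · norm_num
    obtain ⟨μ, hμ1, hμ2, h2⟩ := exists_mu (by norm_num) h1
    exact (main hμ1 (hθ μ hμ2) h2).lzero (le_max_right _ _) (le_max_left _ _) η
  · exact eventually_residual_liouville.mono h3

end Pool.Agent.Results.MP_2f4707_nt.VeryWellApprox
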